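import Mathlib

set_option autoImplicit false

namespace Pool.Agent.Results.MP_65e89e_gt.Counter

open Set Topology

/-- upper semicontinuity of a set-valued map -/
def Usc {A X : Type} [TopologicalSpace A] [TopologicalSpace X] (f : A → Set X) : Prop :=
  ∀ U : Set X, IsOpen U → IsOpen {a | f a ⊆ U}

/-- set-self-Tietze spaces -/
def SetSelfTietze (X : Type) [TopologicalSpace X] : Prop :=
  ∀ A : Set X, IsClosed A → ∀ f : A → Set X, (∀ a, (f a).Nonempty ∧ IsClosed (f a)) → Usc f →
    ∃ F : X → Set X, (∀ x, (F x).Nonempty ∧ IsClosed (F x)) ∧ Usc F ∧ ∀ a : A, F a = f a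

def B : Set (ℝ → Bool) := {x | ∀ i j, x i = true → x j = true → i = j}

lemma B_closed : IsClosed B := by
  have : B = ⋂ i, ⋂ j, ⋂ (_ : i ≠ j), ({x : ℝ → Bool | x i = false} ∪ {x | x j = false}) := by
    ext x
    simp only [B, mem_ofPred_eq, mem_iInter, mem_union]
    constructor
    · intro h i j hij
      by_contra hn
      push Not at hn
      exact hij (h i j (by simpa using hn.1) (by simpa using hn.2))
    · intro h i j h1 h2
      by_contra hij
      rcases h i j hij with h3 | h3 <;> simp_all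
  rw [this]
  exact isClosed_iInter fun i => isClosed_iInter fun j => isClosed_iInter fun _ =>
    (isClosed_eq (continuous_apply i) continuous_const).union
      (isClosed_eq (continuous_apply j) continuous_const)

instance : CompactSpace B := isCompact_iff_compactSpace.1 B_closed.isCompact

abbrev X : Type := (ℝ → Bool) ⊕ B

def A : Set X := {x | Sum.elim (fun y => y ∈ B) (fun _ => True) x}

def g : A → X := fun a => match a with
  | ⟨Sum.inl y, h⟩ => Sum.inr ⟨y, h⟩
  | ⟨Sum.inr y, _⟩ => Sum.inr y

def val : X → (ℝ → Bool) := Sum.elim id Subtype.val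

lemma val_cont : Continuous val := continuous_id.sumElim continuous_subtype_val

lemma val_mem (a : A) : val a.1 ∈ B := by
  obtain ⟨y | y, h⟩ := a
  · exact h
  · exact y.2

lemma g_eq : g = fun a => Sum.inr ⟨val a.1, val_mem a⟩ := by
  funext a
  obtain ⟨y | y, h⟩ := a <;> rfl

lemma g_cont : Continuous g := by
  rw [g_eq]
  exact continuous_inr.comp ((val_cont.comp continuous_subtype_val).subtype_mk _)

lemma A_closed : IsClosed A := by
  rw [isClosed_sum_iff]
  exact ⟨B_closed, isClosed_univ⟩

open Classical in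
noncomputable def e (i : ℝ) : ℝ → Bool := fun j => decide (j = i)

lemma e_mem (i : ℝ) : e i ∈ B := by
  intro j k h1 h2
  simp only [e, decide_eq_true_eq] at h1 h2
  rw [h1, h2]

def U (i : ℝ) : Set X := Sum.inr '' {y : B | y.1 i = true}

lemma U_open (i : ℝ) : IsOpen (U i) := by
  apply isOpenMap_inr
  have h : Continuous fun y : B => y.1 i := (continuous_apply i).comp continuous_subtype_val
  exact (isOpen_discrete {true}).preimage h

theorem result : ∃ (X : Type) (_ : TopologicalSpace X), CompactSpace X ∧ T2Space X ∧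
    ¬ SetSelfTietze X := by
  classical
  refine ⟨X, inferInstance, inferInstance, inferInstance, fun H => ?_⟩
  obtain ⟨F, hF, hU, hA⟩ := H A A_closed (fun a => {g a})
    (fun a => ⟨singleton_nonempty _, isClosed_singleton⟩)
    (fun V hV => by simp only [singleton_subset_iff]; exact hV.preimage g_cont)
  have h1 : ∀ i : ℝ, ∃ S : Finset ℝ, ∀ x : ℝ → Bool, (∀ j ∈ S, x j = e i j) →
      F (Sum.inl x) ⊆ U i := by
    intro i
    have ho : IsOpen {x : ℝ → Bool | F (Sum.inl x) ⊆ U i} :=
      (hU _ (U_open i)).preimage continuous_inl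
    have hm : e i ∈ {x : ℝ → Bool | F (Sum.inl x) ⊆ U i} := by
      have := hA ⟨Sum.inl (e i), e_mem i⟩
      show F (Sum.inl (e i)) ⊆ U i
      rw [this, singleton_subset_iff]
      exact ⟨⟨e i, e_mem i⟩, by simp [e], rfl⟩
    obtain ⟨S, u, h2, h3⟩ := isOpen_pi_iff.1 ho _ hm
    exact ⟨S, fun x hx => h3 fun j hj => by rw [hx j hj]; exact (h2 j hj).2⟩
  choose S hS using h1
  have hc : (range (fun n : ℕ => (n : ℝ)) ∪ ⋃ n : ℕ, (S n : Set ℝ)).Countable :=
    (countable_range _).union (countable_iUnion fun n => (S n).countable_toSet)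
  obtain ⟨j, hj⟩ : ∃ j : ℝ, j ∉ (range (fun n : ℕ => (n : ℝ)) ∪ ⋃ n : ℕ, (S n : Set ℝ)) := by
    by_contra h
    push Not at h
    exact Cardinal.not_countable_real (hc.mono fun x _ => h x)
  obtain ⟨_, ⟨n, rfl⟩, hn⟩ := (infinite_range_of_injective
    (Nat.cast_injective (R := ℝ))).exists_notMem_finset (S j)
  simp only [mem_union, mem_range, mem_iUnion, not_or, not_exists] at hj
  let x : ℝ → Bool := fun k => decide (k = n ∨ k = j)
  have a1 := hS n x fun k hk => by
    have : k ≠ j := fun h => hj.2 n (h ▸ hk)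
    simp [x, e, this]
  have a2 := hS j x fun k hk => by
    have : k ≠ n := fun h => hn (h ▸ hk)
    simp [x, e, this]
  obtain ⟨z, hz⟩ := (hF (Sum.inl x)).1
  obtain ⟨y, hy1, rfl⟩ := a1 hz
  obtain ⟨y', hy2, h⟩ := a2 hz
  rw [Sum.inr_injective h] at hy2
  exact hj.1 n (y.2 _ _ hy1 hy2)

end Pool.Agent.Results.MP_65e89e_gt.Counter
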